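import Pool.Agent.R566.Prophet.Final

/-!
# Non-adaptive prophet inequalities on simple graphic matroids: the ratio is above 2

There is one instance on a simple graph such that every non-adaptive algorithm, also a randomised
one, has expected value at most `𝔼[OPT] / 2.01` on it.  Hence `ρ_simple ≥ 2.01 > 2`.
-/

set_option autoImplicit false

open MeasureTheory
open scoped ENNReal BigOperators

namespace Pool.Agent.Results.MP_8487d8_lc.SimpleGraphsAboveTwo

open Pool.Agent.R566.Prophet

/-- The expected value of the prophet is finite for every instance. -/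
lemma expOpt_ne_top (I : Instance) : expOpt I ≠ ∞ := by
  have h1 : expOpt I ≤ ∫⁻ x : I.ι → ℝ, ∑ i, ENNReal.ofReal (x i) ∂(Measure.pi I.law) := by
    unfold expOpt
    apply lintegral_mono
    intro x
    unfold optValue
    exact iSup₂_le fun F _ => Finset.sum_le_univ_sum_of_nonneg (fun _ => zero_le)
  have h2 : ∫⁻ x : I.ι → ℝ, ∑ i, ENNReal.ofReal (x i) ∂(Measure.pi I.law) =
      ∑ i, ∫⁻ t, ENNReal.ofReal t ∂(I.law i) := by
    rw [lintegral_finsetSum _ fun i _ => (measurable_pi_apply i).ennreal_ofReal]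
    apply Finset.sum_congr rfl
    intro i _
    exact (measurePreserving_eval I.law i).lintegral_comp ENNReal.measurable_ofReal
  rw [h2] at h1
  refine ne_top_of_le_ne_top ?_ h1
  rw [← lt_top_iff_ne_top, ENNReal.sum_lt_top]
  exact fun i _ => lt_top_iff_ne_top.2 (I.law_mean i)

/-- **Q1 has a positive answer: `ρ_simple > 2`**, in fact `ρ_simple ≥ 2.01`.  Moreover there is
a single instance on a simple graph that is bad for all non-adaptive algorithms at the same time. -/
theorem result :
    2 < rhoSimple ∧ ENNReal.ofReal (201 / 100) ≤ rhoSimple ∧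
    ∃ I : Instance, 0 < expOpt I ∧ expOpt I ≠ ∞ ∧ ∀ A : NonAdaptive,
      ENNReal.ofReal (201 / 100) * expAlg I (A.thresholds I) ≤ expOpt I ∧
      ENNReal.ofReal (201 / 100) ≤ expOpt I / expAlg I (A.thresholds I) := by
  obtain ⟨I, h0, hI⟩ := main
  have h1 : ∀ A : NonAdaptive, ENNReal.ofReal (201 / 100) * expAlg I (A.thresholds I) ≤ expOpt I := by
    intro A
    have := A.prob I
    unfold expAlg
    rw [← lintegral_const_mul' _ _ ENNReal.ofReal_ne_top]
    calc ∫⁻ T, ENNReal.ofReal (201 / 100) * (∫⁻ x, algValue I T x ∂(Measure.pi I.law))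
          ∂(A.thresholds I) ≤ ∫⁻ _T, expOpt I ∂(A.thresholds I) := lintegral_mono hI
      _ = expOpt I := by rw [lintegral_const, measure_univ, mul_one]
  have h2 : ∀ A : NonAdaptive,
      ENNReal.ofReal (201 / 100) ≤ expOpt I / expAlg I (A.thresholds I) := by
    intro A
    rw [ENNReal.le_div_iff_mul_le (Or.inr h0.ne') (Or.inr (expOpt_ne_top I))]
    exact h1 A
  have h3 : ENNReal.ofReal (201 / 100) ≤ rhoSimple := by
    unfold rhoSimple
    exact le_iInf fun A => (h2 A).trans (le_iSup (fun I => expOpt I / expAlg I (A.thresholds I)) I)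
  refine ⟨lt_of_lt_of_le ?_ h3, h3, I, h0, expOpt_ne_top I, fun A => ⟨h1 A, h2 A⟩⟩
  rw [ENNReal.lt_ofReal_iff_toReal_lt (by norm_num)]
  norm_num

end Pool.Agent.Results.MP_8487d8_lc.SimpleGraphsAboveTwo
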